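import Pool.Agent.H.MP_9e990c_al.h4.S1
import Pool.Agent.H.MP_9e990c_al.h20.RingO
import Pool.Agent.H.MP_9e990c_al.h89.SigO

/-! The two instances (`i = 1`, `t_1 = t` and `i = 3`, `t_3 = 1`) of the data of section 1 over the
concrete ring `O`. -/

set_option autoImplicit false

namespace Pool.Agent.H.MP_9e990c_al.Base

open N9e PC9e.S1

/-! ### units, root -/

theorem un_piO (a : O) : IsUnit (1 + piO * a) := by
  apply unit_one_add
  rw [map_add, map_mul, redO_pi, zero_mul, add_zero, map_one]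

theorem two_unitO : IsUnit (2 : O) := by
  apply unitO
  rw [map_ofNat]
  have h3 : (3 : MM) = 0 := by exact_mod_cast CharP.cast_eq_zero MM 3
  intro h2
  apply one_ne_zero (α := MM)
  linear_combination h3 - h2

theorem rootO (A B : O) :
    ∃ z c : O, z = 1 + piO * c ∧ z ^ 3 - z ^ 2 + (piO * A) * z + piO * B = 0 := by
  obtain ⟨y, hy, hy1⟩ := root (piO * A) (piO * B) ⟨A, rfl⟩ ⟨B, rfl⟩
  obtain ⟨z, hz⟩ := (unit_one_add y hy1).exists_right_inv
  have h1 : redO z = 1 := by
    have := congrArg redO hz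
    rwa [map_mul, hy1, one_mul, map_one] at this
  have h2 : redO (z - 1) = 0 := by rw [map_sub, h1, map_one, sub_self]
  obtain ⟨c, hc⟩ := redO_ker _ h2
  refine ⟨z, c, by rw [← hc]; ring, ?_⟩
  generalize piO * A = A' at *
  generalize piO * B = B' at *
  have e1 : z ^ 3 * y = z ^ 2 := by
    calc z ^ 3 * y = z ^ 2 * (y * z) := by ring
      _ = z ^ 2 := by rw [hz, mul_one]
  have e2 : z ^ 3 * y ^ 2 = z := by
    calc z ^ 3 * y ^ 2 = z * (y * z) ^ 2 := by ring
      _ = z := by rw [hz]; ring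
  have e3 : z ^ 3 * y ^ 3 = 1 := by
    calc z ^ 3 * y ^ 3 = (y * z) ^ 3 := by ring
      _ = 1 := by rw [hz]; ring
  linear_combination (-z ^ 3) * hy + e1 - A' * e2 - B' * e3

/-! ### the congruence `sigma_i a = a + pi^4 b` -/

theorem mob_sub' (x : R) : ∃ c, mob x - x = piR ^ 4 * c := by
  obtain ⟨v, hv⟩ := (isUnit_one_add_pow 8 (by norm_num) x).exists_right_inv
  have h : (mob x - x) * (1 + piR ^ 8 * x) = piR ^ 4 * (1 - piR ^ 4 * x ^ 2) := by
    rw [sub_mul, mob_mul]; ring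
  refine ⟨(1 - piR ^ 4 * x ^ 2) * v, ?_⟩
  calc mob x - x = (mob x - x) * ((1 + piR ^ 8 * x) * v) := by rw [hv, mul_one]
    _ = (mob x - x) * (1 + piR ^ 8 * x) * v := by ring
    _ = _ := by rw [h]; ring

theorem sR_cong (i : Fin 7) (r : R) : ∃ c, sR i r - r = piR ^ 4 * c := by
  have key : (Ideal.Quotient.mk (Ideal.span {piR ^ 4})).comp (sR i) =
      (Ideal.Quotient.mk (Ideal.span {piR ^ 4})) := by
    refine homR_ext (S := R ⧸ Ideal.span {piR ^ 4}) ?_ ?_
    · rw [RingHom.comp_apply, sR_pi]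
    · intro k
      rw [RingHom.comp_apply]
      by_cases h : k = i
      · subst h
        rw [sR_self]
        refine (Ideal.Quotient.eq).mpr ?_
        obtain ⟨c, hc⟩ := mob_sub' (varR k)
        rw [hc]
        exact Ideal.mul_mem_right _ _ (Ideal.mem_span_singleton_self _)
      · rw [sR_ne h]
  have h := congrArg (fun f : R →+* R ⧸ Ideal.span {piR ^ 4} => f r) key
  have h2 : sR i r - r ∈ Ideal.span {piR ^ 4} := (Ideal.Quotient.eq).mp h
  obtain ⟨c, hc⟩ := Ideal.mem_span_singleton.1 h2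
  exact ⟨c, hc⟩

theorem sO_cong (i : Fin 7) (a : O) : ∃ b, sO i a = a + piO ^ 4 * b := by
  obtain ⟨r, y, rfl⟩ := exists_approx 4 a
  obtain ⟨c, hc⟩ := sR_cong i r
  have h := congrArg (algebraMap R O) hc
  rw [map_sub, map_mul, map_pow] at h
  refine ⟨algebraMap R O c + (sO i y - y), ?_⟩
  rw [map_add, map_mul, map_pow, sO_pi, sO_algebraMap]
  change _ = _ + piO ^ 4 * _
  change _ = piO ^ 4 * _ at h
  linear_combination h

/-! ### the involution -/

/-- the properties of the involution `sigma` used below -/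
structure IsSig (sg : O ≃+* O) : Prop where
  pi : sg piO = piO
  t : sg (varO 0) = varO 0
  x : ∀ i : Fin 7, i = 1 ∨ i = 2 ∨ i = 3 → sg (varO i) = - varO i
  b : ∀ i : Fin 7, i = 4 ∨ i = 5 ∨ i = 6 → sg (varO i) * varO i = 1
  inv : ∀ a, sg (sg a) = a

theorem IsSig.conj {sg : O ≃+* O} (h : IsSig sg) (i : Fin 7) (hi : i = 1 ∨ i = 2 ∨ i = 3)
    (a : O) : sO i (sg (sO i a)) = sg a := by
  have hi0 : (0 : Fin 7) ≠ i := by rcases hi with h | h | h <;> rw [h] <;> decide
  have key : (sO i).comp ((sg : O →+* O).comp (sO i)) = (sg : O →+* O) := by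
    refine homO_ext ?_ ?_ ?_
    · rw [RingHom.comp_apply, RingHom.comp_apply, sO_pi, RingHom.coe_coe, h.pi, sO_pi]
    · rw [RingHom.coe_coe, h.pi]
    · intro k
      rw [RingHom.comp_apply, RingHom.comp_apply, RingHom.coe_coe]
      have hk : k = 0 ∨ (k = 1 ∨ k = 2 ∨ k = 3) ∨ (k = 4 ∨ k = 5 ∨ k = 6) := by
        revert k; decide
      by_cases hki : k = i
      · subst hki
        have h1 := sO_self k
        have h2 := congrArg sg h1
        rw [map_mul, map_add, map_mul, map_add, map_pow, map_pow, map_one, h.pi, h.x k hi] at h2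
        have h3 := congrArg (sO k) h2
        rw [map_mul, map_add, map_mul, map_add, map_pow, map_pow, map_one, sO_pi, map_neg] at h3
        rw [h.x k hi]
        have hu : IsUnit (1 + piO ^ 8 * -(sO k (varO k))) := by
          have := un_piO (-(piO ^ 7 * sO k (varO k)))
          convert this using 1
          ring
        apply hu.mul_left_injective
        change _ * _ = _ * _
        rw [h3]
        linear_combination -h1
      · rcases hk with hk | hk | hk
        · subst hk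
          rw [sO_ne hki, h.t, sO_ne hki]
        · rw [sO_ne hki, h.x k hk, map_neg, sO_ne hki]
        · rw [sO_ne hki]
          have h1 := h.b k hk
          have h2 := congrArg (sO i) h1
          rw [map_mul, map_one, sO_ne hki] at h2
          calc sO i (sg (varO k)) = sO i (sg (varO k)) * (sg (varO k) * varO k) := by
                rw [h1, mul_one]
            _ = (sO i (sg (varO k)) * varO k) * sg (varO k) := by ring
            _ = sg (varO k) := by rw [h2, one_mul]
  exact congrArg (fun f : O →+* O => f a) key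

theorem mul_comm_self (i : Fin 7) : (1 + piO ^ 8 * varO i) * sO i (varO i) = varO i + piO ^ 4 := by
  rw [mul_comm]; exact sO_self i

/-- the data for a pair `(i, 2)`, the third index being `j` -/
noncomputable def dat {sg : O ≃+* O} (h : IsSig sg) (i j : Fin 7) (hi : i = 1 ∨ i = 2 ∨ i = 3)
    (hj : j = 1 ∨ j = 2 ∨ j = 3) (hi2 : i ≠ 2) (hj2 : j ≠ 2) (hij : i ≠ j)
    (t : O) (hSt : ∀ k : Fin 7, k ≠ 0 → sO k t = t) (hst : sg t = t) : Dat O where
  π := piO
  t := t
  x := varO i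
  y := varO 2
  S := sOe i
  T := sOe 2
  J := sOe j
  s := sg
  π0 := nzdO
  π12 := piO_pow
  un := un_piO
  two := two_unitO
  root := rootO
  Sπ := sO_pi i
  Tπ := sO_pi 2
  Jπ := sO_pi j
  sπ := h.pi
  St := hSt i (by rcases hi with h | h | h <;> rw [h] <;> decide)
  Tt := hSt 2 (by decide)
  Jt := hSt j (by rcases hj with h | h | h <;> rw [h] <;> decide)
  st := hst
  Sx := mul_comm_self i
  Tx := sO_ne hi2
  Jx := sO_ne hij
  sx := h.x i hi
  Sy := sO_ne hi2.symm
  Ty := mul_comm_self 2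
  Jy := sO_ne hj2.symm
  sy := h.x 2 (by decide)
  S3 := sO_three i
  T3 := sO_three 2
  J3 := sO_three j
  ss := h.inv
  ST := sO_comm i 2
  SJ := sO_comm i j
  TJ := sO_comm 2 j
  sS := h.conj i hi
  sT := h.conj 2 (by decide)
  sJ := h.conj j hj
  Tc := sO_cong 2

/-- Section 1 for the pair `(1, 2)`, `t_1 = t`. -/
theorem main1 {sg : O ≃+* O} (h : IsSig sg) :
    ∃ u β γ : O, (∃ c, u = 1 + 2 * piO ^ 3 * varO 0 + piO ^ 4 * c) ∧
      (∃ c, β = 1 + piO * c) ∧ (∃ c, γ = 1 + piO * c) ∧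
      u * sO 1 u * sO 1 (sO 1 u) * sO 2 β = β ∧
      u * sO 2 u * sO 2 (sO 2 u) * γ = sO 1 γ ∧
      sg β * β = 1 ∧ sg γ * γ = 1 ∧ sO 1 (sO 2 (sg u)) = u ∧ sO 3 u = u ∧
      sO 1 β = β ∧ sO 3 β = β ∧ sO 2 γ = γ ∧ sO 3 γ = γ :=
  (dat h 1 3 (by decide) (by decide) (by decide) (by decide) (by decide) (varO 0)
    (fun _ hk => sO_ne hk.symm) h.t).main

/-- Section 1 for the pair `(3, 2)`, `t_3 = 1`. -/
theorem main3 {sg : O ≃+* O} (h : IsSig sg) :
    ∃ u β γ : O, (∃ c, u = 1 + 2 * piO ^ 3 * 1 + piO ^ 4 * c) ∧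
      (∃ c, β = 1 + piO * c) ∧ (∃ c, γ = 1 + piO * c) ∧
      u * sO 3 u * sO 3 (sO 3 u) * sO 2 β = β ∧
      u * sO 2 u * sO 2 (sO 2 u) * γ = sO 3 γ ∧
      sg β * β = 1 ∧ sg γ * γ = 1 ∧ sO 3 (sO 2 (sg u)) = u ∧ sO 1 u = u ∧
      sO 3 β = β ∧ sO 1 β = β ∧ sO 2 γ = γ ∧ sO 1 γ = γ :=
  (dat h 3 1 (by decide) (by decide) (by decide) (by decide) (by decide) 1
    (fun _ _ => map_one _) (map_one _)).main

end Pool.Agent.H.MP_9e990c_al.Base
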