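import Mathlib

/-! Section 1 of the proof for MP_9e990c, in abstract form: the units `u`, `β`, `γ`. -/

namespace PC9e.S1

variable {O : Type*} [CommRing O]

/-- The data of section 0 needed for one pair `(i, 2)`. -/
structure Dat (O : Type*) [CommRing O] where
  π : O
  t : O
  x : O
  y : O
  S : O ≃+* O
  T : O ≃+* O
  J : O ≃+* O
  s : O ≃+* O
  π0 : ∀ a : O, π * a = 0 → a = 0
  π12 : π ^ 12 = -3
  un : ∀ a : O, IsUnit (1 + π * a)
  two : IsUnit (2 : O)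
  root : ∀ A B : O, ∃ z c : O, z = 1 + π * c ∧ z ^ 3 - z ^ 2 + (π * A) * z + π * B = 0
  Sπ : S π = π
  Tπ : T π = π
  Jπ : J π = π
  sπ : s π = π
  St : S t = t
  Tt : T t = t
  Jt : J t = t
  st : s t = t
  Sx : (1 + π ^ 8 * x) * S x = x + π ^ 4
  Tx : T x = x
  Jx : J x = x
  sx : s x = -x
  Sy : S y = y
  Ty : (1 + π ^ 8 * y) * T y = y + π ^ 4
  Jy : J y = y
  sy : s y = -y
  S3 : ∀ a, S (S (S a)) = a
  T3 : ∀ a, T (T (T a)) = a
  J3 : ∀ a, J (J (J a)) = a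
  ss : ∀ a, s (s a) = a
  ST : ∀ a, S (T a) = T (S a)
  SJ : ∀ a, S (J a) = J (S a)
  TJ : ∀ a, T (J a) = J (T a)
  sS : ∀ a, S (s (S a)) = s a
  sT : ∀ a, T (s (T a)) = s a
  sJ : ∀ a, J (s (J a)) = s a
  Tc : ∀ a, ∃ b, T a = a + π ^ 4 * b

namespace Dat

variable (D : Dat O)

lemma πpow0 (k : ℕ) (a : O) (h : D.π ^ k * a = 0) : a = 0 := by
  induction k with
  | zero => simpa using h
  | succ k ih =>
    apply ih
    apply D.π0
    rw [← mul_assoc, ← pow_succ']; exact h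

lemma πcancel (k : ℕ) {a b : O} (h : D.π ^ k * a = D.π ^ k * b) : a = b := by
  have := D.πpow0 k (a - b) (by rw [mul_sub, h, sub_self])
  exact sub_eq_zero.mp this

lemma ucancel {u a b : O} (hu : IsUnit u) (h : u * a = u * b) : a = b := hu.mul_left_cancel h

/-- symmetric functions of the three conjugates under a Moebius map of order 3. -/
lemma conj2 {x x1 x2 : O} (h1 : (1 + D.π ^ 8 * x) * x1 = x + D.π ^ 4)
    (h2 : (1 + D.π ^ 8 * x1) * x2 = x1 + D.π ^ 4) : (1 - D.π ^ 8 * x) * x2 = x - D.π ^ 4 := by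
  have hp := D.π12
  apply ucancel D.two
  linear_combination (-(1 + D.π ^ 8 * x)) * h2 + (D.π ^ 8 * x2 - 1) * h1 + (x2 - x) * hp

lemma e2 {x x1 x2 : O} (h1 : (1 + D.π ^ 8 * x) * x1 = x + D.π ^ 4)
    (h2 : (1 + D.π ^ 8 * x1) * x2 = x1 + D.π ^ 4) (h3 : (1 + D.π ^ 8 * x2) * x = x2 + D.π ^ 4) :
    x * x1 + x1 * x2 + x2 * x = - D.π ^ 8 := by
  have hp := D.π12
  apply D.πcancel 8
  linear_combination h1 + h2 + h3 + D.π ^ 4 * hp

lemma e1 {x x1 x2 : O} (h1 : (1 + D.π ^ 8 * x) * x1 = x + D.π ^ 4)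
    (h2 : (1 + D.π ^ 8 * x1) * x2 = x1 + D.π ^ 4) :
    x + x1 + x2 = - D.π ^ 16 * (x * x1 * x2) := by
  have hp := D.π12
  have h4 := D.conj2 h1 h2
  have hu1 : IsUnit (1 + D.π ^ 8 * x) := by
    have := D.un (D.π ^ 7 * x); convert this using 1; ring
  have hu2 : IsUnit (1 - D.π ^ 8 * x) := by
    have := D.un (-D.π ^ 7 * x); convert this using 1; ring
  apply ucancel (hu1.mul hu2)
  have hp2 : D.π ^ 24 = 9 := by
    have : D.π ^ 24 = (D.π ^ 12) ^ 2 := by ring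
    rw [this, hp]; norm_num
  linear_combination (1 - D.π ^ 8 * x) * h1 + (1 + D.π ^ 8 * x) * h4
    + D.π ^ 16 * x * ((1 - D.π ^ 8 * x) * x2) * h1 + D.π ^ 16 * x * (x + D.π ^ 4) * h4
    - (2 * x) * hp - x * hp2

lemma norm_f {x x1 x2 ε : O} (h1 : (1 + D.π ^ 8 * x) * x1 = x + D.π ^ 4)
    (h2 : (1 + D.π ^ 8 * x1) * x2 = x1 + D.π ^ 4) (h3 : (1 + D.π ^ 8 * x2) * x = x2 + D.π ^ 4) :
    (1 + ε * (x * x1)) * (1 + ε * (x1 * x2)) * (1 + ε * (x2 * x)) =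
      1 - D.π ^ 8 * ε - (x * x1 * x2) ^ 2 * D.π ^ 16 * ε ^ 2 + (x * x1 * x2) ^ 2 * ε ^ 3 := by
  have a := D.e2 h1 h2 h3
  have b := D.e1 h1 h2
  linear_combination ε * a + ε ^ 2 * (x * x1 * x2) * b

/-- fixed by `S` implies `s a` fixed by `S`. -/
lemma Ss {a : O} (h : D.S a = a) : D.S (D.s a) = D.s a := by
  have := D.sS a; rwa [h] at this
lemma Ts {a : O} (h : D.T a = a) : D.T (D.s a) = D.s a := by
  have := D.sT a; rwa [h] at this
lemma Js {a : O} (h : D.J a = a) : D.J (D.s a) = D.s a := by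
  have := D.sJ a; rwa [h] at this

/-- uniqueness of the root congruent to one. -/
lemma root_unique {A B c c' : O}
    (h : (1 + D.π * c) ^ 3 - (1 + D.π * c) ^ 2 + (D.π * A) * (1 + D.π * c) + D.π * B = 0)
    (h' : (1 + D.π * c') ^ 3 - (1 + D.π * c') ^ 2 + (D.π * A) * (1 + D.π * c') + D.π * B = 0) :
    1 + D.π * c = 1 + D.π * c' := by
  have hu : IsUnit ((1 + D.π * c) ^ 2 + (1 + D.π * c) * (1 + D.π * c') + (1 + D.π * c') ^ 2
      - (1 + D.π * c) - (1 + D.π * c') + D.π * A) := by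
    have := D.un (2 * c + D.π * c ^ 2 + (c + c' + D.π * c * c') + (2 * c' + D.π * c' ^ 2)
      - c - c' + A)
    convert this using 1; ring
  apply ucancel hu
  linear_combination h - h'

/-- The element `β0` and its first properties. -/
lemma exists_β0 : ∃ b b' : O, b' = D.s b ∧ b * b' = 1 ∧ D.S b = b ∧ D.J b = b ∧
    (∃ r, b = 1 + D.π * r) ∧
    (∃ k, b * D.T b' = 1 + D.π ^ 9 * D.t ^ 3 + D.π ^ 13 * k) := by
  have hp := D.π12
  obtain ⟨hf, hhf⟩ : ∃ hf : O, 2 * hf = 1 := by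
    obtain ⟨u, hu⟩ := D.two
    exact ⟨(u⁻¹ : Oˣ), by rw [← hu]; simp⟩
  have fixhf : ∀ φ : O ≃+* O, φ hf = hf := by
    intro φ
    apply ucancel D.two
    have : φ (2 * hf) = φ 1 := by rw [hhf]
    rw [map_mul, map_one, map_ofNat] at this
    rw [this, hhf]
  have hun : ∀ a : O, IsUnit (1 + D.π ^ 5 * a) := fun a => by
    have := D.un (D.π ^ 4 * a); convert this using 1; ring
  obtain ⟨i, hi⟩ : ∃ i : O, (1 + D.π ^ 5 * (hf * D.t ^ 3 * D.y)) * i = 1 := by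
    obtain ⟨u, hu⟩ := hun (hf * D.t ^ 3 * D.y)
    exact ⟨(u⁻¹ : Oˣ), by rw [← hu]; simp⟩
  set c : O := D.π ^ 5 * (hf * D.t ^ 3) with hc
  obtain ⟨b, hb⟩ : ∃ b : O, (1 + c * D.y) * b = 1 - c * D.y :=
    ⟨i * (1 - c * D.y), by
      have : (1 + D.π ^ 5 * (hf * D.t ^ 3 * D.y)) = 1 + c * D.y := by rw [hc]; ring
      rw [← mul_assoc, ← this, hi, one_mul]⟩
  have hu1 : ∀ a : O, IsUnit (1 + c * a) := fun a => by
    have := hun (hf * D.t ^ 3 * a); convert this using 1; rw [hc]; ring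
  have hu2 : ∀ a : O, IsUnit (1 - c * a) := fun a => by
    have := hu1 (-a); convert this using 1; ring
  have Sc : D.S c = c := by rw [hc]; simp [D.Sπ, D.St, fixhf]
  have Tc : D.T c = c := by rw [hc]; simp [D.Tπ, D.Tt, fixhf]
  have Jc : D.J c = c := by rw [hc]; simp [D.Jπ, D.Jt, fixhf]
  have sc : D.s c = c := by rw [hc]; simp [D.sπ, D.st, fixhf]
  have hsb : (1 - c * D.y) * D.s b = 1 + c * D.y := by
    have := congrArg D.s hb
    simp only [map_mul, map_add, map_sub, map_one, sc, D.sy] at this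
    linear_combination this
  have hSb : D.S b = b := by
    apply ucancel (hu1 D.y)
    have := congrArg D.S hb
    simp only [map_mul, map_add, map_sub, map_one, Sc, D.Sy] at this
    rw [this, hb]
  have hJb : D.J b = b := by
    apply ucancel (hu1 D.y)
    have := congrArg D.J hb
    simp only [map_mul, map_add, map_sub, map_one, Jc, D.Jy] at this
    rw [this, hb]
  have hbb : b * D.s b = 1 := by
    apply ucancel ((hu1 D.y).mul (hu2 D.y))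
    linear_combination (1 - c * D.y) * D.s b * hb + (1 - c * D.y) * hsb
  have hTsb : (1 - c * D.T D.y) * D.T (D.s b) = 1 + c * D.T D.y := by
    have := congrArg D.T hsb
    simpa only [map_mul, map_add, map_sub, map_one, Tc] using this
  refine ⟨b, D.s b, rfl, hbb, hSb, hJb, ⟨- (D.π ^ 4 * (hf * D.t ^ 3)) * D.y * (1 + b), ?_⟩, ?_⟩
  · rw [hc] at hb
    linear_combination hb
  · set y := D.y with hy
    set y1 := D.T y with hy1
    have hTy : (1 + D.π ^ 8 * y) * y1 = y + D.π ^ 4 := D.Ty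
    set c0 : O := hf * D.t ^ 3 with hc0
    set E : O := D.π ^ 3 * y + (1 + D.π ^ 8 * y) * (c0 * y - c0 * y1 - D.π ^ 5 * c0 ^ 2 * y * y1)
      with hE
    obtain ⟨v, hv⟩ : ∃ v : O, (1 + D.π ^ 5 * E) * v = 1 := by
      obtain ⟨u, hu⟩ := hun E
      exact ⟨(u⁻¹ : Oˣ), by rw [← hu]; simp⟩
    refine ⟨(- D.t ^ 3 * y ^ 2 - D.π * D.t ^ 3 * E) * v, ?_⟩
    have hD : (1 + D.π ^ 8 * y) * ((1 + c * y) * (1 - c * y1)) = 1 + D.π ^ 5 * E := by
      rw [hE, hc]; ring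
    have hB : b * D.T (D.s b) * ((1 + c * y) * (1 - c * y1)) = (1 - c * y) * (1 + c * y1) := by
      linear_combination (1 - c * y1) * D.T (D.s b) * hb + (1 - c * y) * hTsb
    have h2c : 2 * c = D.π ^ 5 * D.t ^ 3 := by
      rw [hc, hc0]; linear_combination D.π ^ 5 * D.t ^ 3 * hhf
    apply ucancel (hun E)
    have key : (b * D.T (D.s b)) * (1 + D.π ^ 5 * E)
        = (1 + D.π ^ 9 * D.t ^ 3) * (1 + D.π ^ 5 * E)
          + D.π ^ 13 * (- D.t ^ 3 * y ^ 2 - D.π * D.t ^ 3 * E) := by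
      rw [← hD]
      have e1 : (b * D.T (D.s b)) * ((1 + D.π ^ 8 * y) * ((1 + c * y) * (1 - c * y1)))
          = (1 + D.π ^ 8 * y) * ((1 - c * y) * (1 + c * y1)) := by
        linear_combination (1 + D.π ^ 8 * y) * hB
      rw [e1]
      have e2 : (1 + D.π ^ 8 * y) * ((1 - c * y) * (1 + c * y1))
          = (1 + D.π ^ 8 * y) * ((1 + c * y) * (1 - c * y1))
            + D.π ^ 5 * D.t ^ 3 * (D.π ^ 4 - D.π ^ 8 * y ^ 2) := by
        linear_combination (2 * c) * hTy + (D.π ^ 4 - D.π ^ 8 * y ^ 2) * h2c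
      have hE' := hD
      linear_combination e2 + (- D.π ^ 9 * D.t ^ 3) * hE'
    linear_combination key + (-(D.π ^ 13 * (- D.t ^ 3 * y ^ 2 - D.π * D.t ^ 3 * E))) * hv

/-- `Θ = S ∘ T ∘ s`. -/
def Θ : O ≃+* O := (D.s.trans D.T).trans D.S

lemma Θ_def (a : O) : D.Θ a = D.S (D.T (D.s a)) := rfl

/-- The units `G`, `κ` with `B0 = (1+δ)^3 G`, `G = 1 + π^13 κ`. -/
lemma exists_G {b b' : O} (hb' : b' = D.s b) (hbb : b * b' = 1) (hSb : D.S b = b)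
    (hJb : D.J b = b)
    (hk : ∃ k, b * D.T b' = 1 + D.π ^ 9 * D.t ^ 3 + D.π ^ 13 * k) :
    ∃ G κ : O, (1 + D.π ^ 3 * D.t) ^ 3 * G = b * D.T b' ∧ G = 1 + D.π ^ 13 * κ ∧
      D.S κ = κ ∧ D.J κ = κ ∧ D.Θ κ = κ ∧ D.S G = G := by
  have hp := D.π12
  obtain ⟨k, hk⟩ := hk
  have hun3 : ∀ a : O, IsUnit (1 + D.π ^ 3 * a) := fun a => by
    have := D.un (D.π ^ 2 * a); convert this using 1; ring
  obtain ⟨di, hdi⟩ : ∃ v : O, (1 + D.π ^ 3 * D.t) * v = 1 := by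
    obtain ⟨u, hu⟩ := hun3 D.t
    exact ⟨(u⁻¹ : Oˣ), by rw [← hu]; simp⟩
  have fixdi : ∀ φ : O ≃+* O, φ D.π = D.π → φ D.t = D.t → φ di = di := by
    intro φ h1 h2
    apply ucancel (hun3 D.t)
    have := congrArg φ hdi
    simp only [map_mul, map_add, map_one, map_pow, h1, h2] at this
    rw [this, hdi]
  set B : O := b * D.T b' with hB
  have SB : D.S B = B := by
    rw [hB, map_mul, D.ST, hSb, hb', D.Ss hSb]
  have JB : D.J B = B := by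
    rw [hB, map_mul, ← D.TJ, hJb, hb', D.Js hJb]
  have TsB : D.T (D.s B) = B := by
    have h1 : D.T (D.s (D.T (D.s b))) = b := by rw [D.sT, D.ss]
    rw [hB, map_mul, map_mul, hb', h1]; ring
  have ΘB : D.Θ B = B := by rw [Θ_def, TsB, SB]
  clear_value B
  have Θπ : D.Θ D.π = D.π := by rw [Θ_def, D.sπ, D.Tπ, D.Sπ]
  have Θt : D.Θ D.t = D.t := by rw [Θ_def, D.st, D.Tt, D.St]
  have hG : B * di ^ 3 = 1 + D.π ^ 13 * ((k + D.π ^ 2 * (D.t + D.π ^ 3 * D.t ^ 2)) * di ^ 3) := by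
    have e3 : (1 + D.π ^ 3 * D.t) ^ 3 = 1 + D.π ^ 9 * D.t ^ 3
        - D.π ^ 15 * (D.t + D.π ^ 3 * D.t ^ 2) := by
      linear_combination (D.π ^ 3 * D.t + D.π ^ 6 * D.t ^ 2) * hp
    have e4 : (1 + D.π ^ 3 * D.t) ^ 3 * di ^ 3 = 1 := by rw [← mul_pow, hdi, one_pow]
    linear_combination di ^ 3 * hk - di ^ 3 * e3 + e4
  have inv : ∀ φ : O ≃+* O, φ D.π = D.π → φ D.t = D.t → φ B = B →
      φ ((k + D.π ^ 2 * (D.t + D.π ^ 3 * D.t ^ 2)) * di ^ 3)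
        = ((k + D.π ^ 2 * (D.t + D.π ^ 3 * D.t ^ 2)) * di ^ 3) := by
    intro φ h1 h2 h3
    apply D.πcancel 13
    have := congrArg φ hG
    rw [map_mul, map_add, map_mul, map_pow, map_pow, map_one, h1, h3, fixdi φ h1 h2] at this
    linear_combination hG - this
  refine ⟨B * di ^ 3, _, ?_, hG, inv D.S D.Sπ D.St SB, inv D.J D.Jπ D.Jt JB, inv D.Θ Θπ Θt ΘB, ?_⟩
  · have e4 : (1 + D.π ^ 3 * D.t) ^ 3 * di ^ 3 = 1 := by rw [← mul_pow, hdi, one_pow]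
    linear_combination B * e4
  · rw [map_mul, map_pow, SB, fixdi D.S D.Sπ D.St]

/-- The element `u0`. -/
lemma exists_u0 {b b' : O} (hb' : b' = D.s b) (hbb : b * b' = 1) (hSb : D.S b = b)
    (hJb : D.J b = b)
    (hk : ∃ k, b * D.T b' = 1 + D.π ^ 9 * D.t ^ 3 + D.π ^ 13 * k) :
    ∃ u0 e : O, u0 = (1 + D.π ^ 3 * D.t) * (1 + D.π ^ 5 * e * (D.x * D.S D.x)) ∧
      u0 * D.S u0 * D.S (D.S u0) = b * D.T b' ∧ D.J u0 = u0 ∧ D.Θ u0 = u0 := by
  have hp := D.π12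
  obtain ⟨G, κ, hG1, hG2, Sκ, Jκ, Θκ, SG⟩ := D.exists_G hb' hbb hSb hJb hk
  have h1 : (1 + D.π ^ 8 * D.x) * D.S D.x = D.x + D.π ^ 4 := D.Sx
  have h2 : (1 + D.π ^ 8 * D.S D.x) * D.S (D.S D.x) = D.S D.x + D.π ^ 4 := by
    have := congrArg D.S h1
    simpa only [map_mul, map_add, map_one, map_pow, D.Sπ] using this
  have h3 : (1 + D.π ^ 8 * D.S (D.S D.x)) * D.x = D.S (D.S D.x) + D.π ^ 4 := by
    have := congrArg D.S h2
    simpa only [map_mul, map_add, map_one, map_pow, D.Sπ, D.S3] using this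
  set x0 := D.x with hx0
  set x1 := D.S x0 with hx1
  set x2 := D.S x1 with hx2
  have Sx2 : D.S x2 = x0 := by rw [hx2, hx1, D.S3]
  set w : O := x0 * x1 * x2 with hw
  have Sw : D.S w = w := by
    rw [hw, map_mul, map_mul, ← hx1, ← hx2, Sx2]; ring
  have Jx0 : D.J x0 = x0 := D.Jx
  have Jx1 : D.J x1 = x1 := by rw [hx1, ← D.SJ, Jx0]
  have Jx2 : D.J x2 = x2 := by rw [hx2, ← D.SJ, Jx1]
  have Jw : D.J w = w := by rw [hw, map_mul, map_mul, Jx1, Jx2, D.Jx]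
  have Θπ : D.Θ D.π = D.π := by rw [Θ_def, D.sπ, D.Tπ, D.Sπ]
  have Θt : D.Θ D.t = D.t := by rw [Θ_def, D.st, D.Tt, D.St]
  have Ssx1 : D.S (D.s x1) = - x0 := by
    rw [hx1, D.sS, D.sx]
  have Θx0 : D.Θ x0 = - x1 := by
    rw [Θ_def, D.sx, map_neg, D.Tx, map_neg]
  have Θx1 : D.Θ x1 = - x0 := by
    rw [Θ_def, D.ST, Ssx1, map_neg, D.Tx]
  have Θx2 : D.Θ x2 = - x2 := by
    have h : D.S (D.s x2) = D.s x1 := by rw [hx2, D.sS]
    have h' : D.s x1 = - x2 := by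
      have h4 : D.S (D.S (D.S (D.s x1))) = D.s x1 := D.S3 _
      rw [Ssx1, map_neg, ← hx1, map_neg, ← hx2] at h4
      exact h4.symm
    have Tx2 : D.T x2 = x2 := by rw [hx2, hx1, ← D.ST, ← D.ST, D.Tx]
    rw [Θ_def, D.ST, h, h', map_neg, Tx2]
  have Θw : D.Θ (w ^ 2) = w ^ 2 := by
    rw [map_pow, hw, map_mul, map_mul, Θx0, Θx1, Θx2]; ring
  have Θf : D.Θ (x0 * x1) = x0 * x1 := by rw [map_mul, Θx0, Θx1]; ring
  -- the root
  obtain ⟨z, c, hz, hroot⟩ := D.root (w ^ 2 * D.π ^ 12 * κ) (w ^ 2 * D.π * κ ^ 2)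
  rw [hz] at hroot
  have fixz : ∀ φ : O ≃+* O, φ D.π = D.π → φ (w ^ 2) = w ^ 2 → φ κ = κ →
      φ (1 + D.π * c) = 1 + D.π * c := by
    intro φ e1 e2 e3
    have h4 := congrArg φ hroot
    simp only [map_mul, map_add, map_one, map_pow, map_sub, map_zero, e1, e3] at h4
    rw [← map_pow, e2] at h4
    rw [map_add, map_mul, map_one, e1]
    exact D.root_unique h4 hroot
  obtain ⟨zi, hzi⟩ : ∃ v : O, (1 + D.π * c) * v = 1 := by
    obtain ⟨u, hu⟩ := D.un c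
    exact ⟨(u⁻¹ : Oˣ), by rw [← hu]; simp⟩
  have fixzi : ∀ φ : O ≃+* O, φ (1 + D.π * c) = 1 + D.π * c → φ zi = zi := by
    intro φ e1
    apply ucancel (D.un c)
    have := congrArg φ hzi
    rw [map_mul, map_one, e1] at this
    rw [this, hzi]
  have Szi : D.S zi = zi := fixzi _ (fixz _ D.Sπ (by rw [map_pow, Sw]) Sκ)
  have Jzi : D.J zi = zi := fixzi _ (fixz _ D.Jπ (by rw [map_pow, Jw]) Jκ)
  have Θzi : D.Θ zi = zi := fixzi _ (fixz _ Θπ Θw Θκ)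
  refine ⟨(1 + D.π ^ 3 * D.t) * (1 + D.π ^ 5 * (-κ * zi) * (x0 * x1)), -κ * zi, rfl, ?_, ?_, ?_⟩
  · have hN := D.norm_f (ε := D.π ^ 5 * (-κ * zi)) h1 h2 h3
    rw [← hw] at hN
    have hNG : (1 + D.π ^ 5 * (-κ * zi) * (x0 * x1)) * (1 + D.π ^ 5 * (-κ * zi) * (x1 * x2)) *
        (1 + D.π ^ 5 * (-κ * zi) * (x2 * x0)) = G := by
      rw [hN, hG2]
      apply ucancel ((D.un c).pow 3)
      have hz3 : (1 + D.π * c) ^ 3 * zi ^ 3 = 1 := by rw [← mul_pow, hzi, one_pow]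
      have hz2 : (1 + D.π * c) ^ 2 * zi ^ 2 = 1 := by rw [← mul_pow, hzi, one_pow]
      linear_combination (-D.π ^ 13 * κ) * hroot + (D.π ^ 13 * κ * (1 + D.π * c) ^ 2) * hzi
        - (w ^ 2 * D.π ^ 26 * κ ^ 2 * (1 + D.π * c)) * hz2 - (w ^ 2 * D.π ^ 15 * κ ^ 3) * hz3
    simp only [map_mul, map_add, map_one, map_pow, map_neg, D.Sπ, D.St, Sκ, Szi, ← hx1, ← hx2, Sx2]
    rw [← hG1, ← hNG]; ring
  · simp only [map_mul, map_add, map_one, map_pow, map_neg, D.Jπ, D.Jt, Jκ, Jzi, Jx1, Jx0]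
  · rw [map_mul, map_add, map_mul, map_pow, Θπ, Θt, map_add, map_mul, Θf, map_mul, map_pow, Θπ,
      map_mul, map_neg, Θκ, Θzi]
    simp only [map_one]

/-- The result of section 1: the units `u`, `β`, `γ`. -/
theorem main : ∃ u β γ : O,
    (∃ c, u = 1 + 2 * D.π ^ 3 * D.t + D.π ^ 4 * c) ∧
    (∃ c, β = 1 + D.π * c) ∧ (∃ c, γ = 1 + D.π * c) ∧
    u * D.S u * D.S (D.S u) * D.T β = β ∧
    u * D.T u * D.T (D.T u) * γ = D.S γ ∧
    D.s β * β = 1 ∧ D.s γ * γ = 1 ∧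
    D.S (D.T (D.s u)) = u ∧ D.J u = u ∧ D.S β = β ∧ D.J β = β ∧
    D.T γ = γ ∧ D.J γ = γ := by
  have hp := D.π12
  obtain ⟨b, b', hb', hbb, hSb, hJb, ⟨rb, hrb⟩, hk⟩ := D.exists_β0
  obtain ⟨u0, e, hu0, hNS, Ju0, Θu0⟩ := D.exists_u0 hb' hbb hSb hJb hk
  -- `g`
  set g : O := u0 * D.T u0 * D.T (D.T u0) with hg
  have Tg : D.T g = g := by rw [hg, map_mul, map_mul, D.T3]; ring
  have Jg : D.J g = g := by
    rw [hg, map_mul, map_mul, Ju0, ← D.TJ, Ju0, ← D.TJ, ← D.TJ, Ju0]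
  have Θg : D.Θ g = g := by
    have h1 : D.S (D.T (D.s (D.T u0))) = D.T (D.T u0) := by
      have : D.T (D.s (D.T u0)) = D.s u0 := D.sT u0
      rw [this]
      have h2 : D.S (D.T (D.s u0)) = u0 := Θu0
      have h3 := congrArg (fun a => D.T (D.T a)) h2
      rw [← h3, ← D.ST, ← D.ST, D.T3]
    have h4 : D.S (D.T (D.s (D.T (D.T u0)))) = D.T u0 := by
      have : D.T (D.s (D.T (D.T u0))) = D.s (D.T u0) := D.sT _
      rw [this]
      have h3 := congrArg (fun a => D.T (D.T a)) h1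
      rw [D.T3, ← D.ST, ← D.ST, D.T3] at h3
      exact h3
    have h0 : D.S (D.T (D.s u0)) = u0 := Θu0
    rw [Θ_def, hg, map_mul, map_mul, map_mul, map_mul, map_mul, map_mul, h0, h1, h4]; ring
  have NSg : g * D.S g * D.S (D.S g) = 1 := by
    have e1 : D.S g = D.S u0 * D.T (D.S u0) * D.T (D.T (D.S u0)) := by
      rw [hg, map_mul, map_mul, D.ST, D.ST, D.ST]
    have e2 : D.S (D.S g) = D.S (D.S u0) * D.T (D.S (D.S u0)) * D.T (D.T (D.S (D.S u0))) := by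
      rw [e1, map_mul, map_mul, D.ST, D.ST, D.ST]
    have e3 : D.T (u0 * D.S u0 * D.S (D.S u0)) = D.T b * D.T (D.T b') := by rw [hNS, map_mul]
    have e4 : D.T (D.T (u0 * D.S u0 * D.S (D.S u0))) = D.T (D.T b) * b' := by
      rw [e3, map_mul, D.T3]
    have e5 : D.T b * D.T b' = 1 := by rw [← map_mul, hbb, map_one]
    have e6 : D.T (D.T b) * D.T (D.T b') = 1 := by rw [← map_mul, e5, map_one]
    rw [map_mul, map_mul] at e3
    rw [map_mul, map_mul, map_mul, map_mul] at e4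
    rw [e2, e1, hg]
    have e7 : u0 * D.T u0 * D.T (D.T u0) * (D.S u0 * D.T (D.S u0) * D.T (D.T (D.S u0))) *
        (D.S (D.S u0) * D.T (D.S (D.S u0)) * D.T (D.T (D.S (D.S u0)))) =
        (u0 * D.S u0 * D.S (D.S u0)) * (D.T u0 * D.T (D.S u0) * D.T (D.S (D.S u0))) *
        (D.T (D.T u0) * D.T (D.T (D.S u0)) * D.T (D.T (D.S (D.S u0)))) := by ring
    rw [e7, hNS, e3, e4]
    linear_combination (D.T b * D.T b' * (D.T (D.T b) * D.T (D.T b'))) * hbb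
      + (D.T (D.T b) * D.T (D.T b')) * e5 + e6
  -- `g ≡ 1 mod π^9`
  set f : O := D.x * D.S D.x with hf
  have Tf : D.T f = f := by rw [hf, map_mul, ← D.ST, D.Tx]
  have Jf : D.J f = f := by rw [hf, map_mul, ← D.SJ, D.Jx]
  obtain ⟨m, hm⟩ : ∃ m, g = 1 + D.π ^ 9 * m := by
    obtain ⟨b1, hb1⟩ := D.Tc e
    obtain ⟨b2, hb2⟩ := D.Tc (D.T e)
    have e1 : D.T u0 = (1 + D.π ^ 3 * D.t) * (1 + D.π ^ 5 * (D.T e) * f) := by
      rw [hu0, map_mul, map_add, map_mul, map_pow, map_add, map_mul, map_mul, map_pow, Tf, D.Tπ,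
        D.Tt, map_one]
    have e2 : D.T (D.T u0) = (1 + D.π ^ 3 * D.t) * (1 + D.π ^ 5 * (D.T (D.T e)) * f) := by
      rw [e1, map_mul, map_add, map_mul, map_pow, map_add, map_mul, map_mul, map_pow, Tf, D.Tπ,
        D.Tt, map_one]
    rw [hb2, hb1] at e2
    rw [hb1] at e1
    have e3 : (1 + D.π ^ 3 * D.t) ^ 3 = 1 + D.π ^ 9 * (D.t ^ 3
        - D.π ^ 6 * (D.t + D.π ^ 3 * D.t ^ 2)) := by
      linear_combination (D.π ^ 3 * D.t + D.π ^ 6 * D.t ^ 2) * hp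
    have e4 : (1 + D.π ^ 5 * e * f) * (1 + D.π ^ 5 * (e + D.π ^ 4 * b1) * f) *
        (1 + D.π ^ 5 * (e + D.π ^ 4 * b1 + D.π ^ 4 * b2) * f) = 1 + D.π ^ 9 *
        (-D.π ^ 8 * f * e + f * (2 * b1 + b2) + D.π * f ^ 2 * (e * (e + D.π ^ 4 * b1) +
          e * (e + D.π ^ 4 * b1 + D.π ^ 4 * b2) +
          (e + D.π ^ 4 * b1) * (e + D.π ^ 4 * b1 + D.π ^ 4 * b2)) +
          D.π ^ 6 * f ^ 3 * (e * (e + D.π ^ 4 * b1) * (e + D.π ^ 4 * b1 + D.π ^ 4 * b2))) := by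
      linear_combination (D.π ^ 5 * f * e) * hp
    have e5 : g = (1 + D.π ^ 3 * D.t) ^ 3 * ((1 + D.π ^ 5 * e * f) *
        (1 + D.π ^ 5 * (e + D.π ^ 4 * b1) * f) *
        (1 + D.π ^ 5 * (e + D.π ^ 4 * b1 + D.π ^ 4 * b2) * f)) := by
      rw [hg, e2, e1, hu0]; ring
    rw [e5, e3, e4]
    refine ⟨(D.t ^ 3 - D.π ^ 6 * (D.t + D.π ^ 3 * D.t ^ 2)) +
      (-D.π ^ 8 * f * e + f * (2 * b1 + b2) + D.π * f ^ 2 * (e * (e + D.π ^ 4 * b1) +
          e * (e + D.π ^ 4 * b1 + D.π ^ 4 * b2) +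
          (e + D.π ^ 4 * b1) * (e + D.π ^ 4 * b1 + D.π ^ 4 * b2)) +
          D.π ^ 6 * f ^ 3 * (e * (e + D.π ^ 4 * b1) * (e + D.π ^ 4 * b1 + D.π ^ 4 * b2))) +
      D.π ^ 9 * (D.t ^ 3 - D.π ^ 6 * (D.t + D.π ^ 3 * D.t ^ 2)) *
      (-D.π ^ 8 * f * e + f * (2 * b1 + b2) + D.π * f ^ 2 * (e * (e + D.π ^ 4 * b1) +
          e * (e + D.π ^ 4 * b1 + D.π ^ 4 * b2) +
          (e + D.π ^ 4 * b1) * (e + D.π ^ 4 * b1 + D.π ^ 4 * b2)) +
          D.π ^ 6 * f ^ 3 * (e * (e + D.π ^ 4 * b1) * (e + D.π ^ 4 * b1 + D.π ^ 4 * b2))), ?_⟩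
    ring
  -- `τ`
  have sumf : f + D.S f + D.S (D.S f) = - D.π ^ 8 := by
    have h1 : (1 + D.π ^ 8 * D.x) * D.S D.x = D.x + D.π ^ 4 := D.Sx
    have h2 : (1 + D.π ^ 8 * D.S D.x) * D.S (D.S D.x) = D.S D.x + D.π ^ 4 := by
      have := congrArg D.S h1
      simpa only [map_mul, map_add, map_one, map_pow, D.Sπ] using this
    have h3 : (1 + D.π ^ 8 * D.S (D.S D.x)) * D.x = D.S (D.S D.x) + D.π ^ 4 := by
      have := congrArg D.S h2
      simpa only [map_mul, map_add, map_one, map_pow, D.Sπ, D.S3] using this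
    have := D.e2 h1 h2 h3
    rw [hf, map_mul, map_mul, D.S3]; exact this
  have S3f : D.S (D.S (D.S f)) = f := D.S3 f
  set f1 : O := D.S f with hf1
  set f2 : O := D.S f1 with hf2
  have Tf1 : D.T f1 = f1 := by rw [hf1, ← D.ST, Tf]
  have Tf2 : D.T f2 = f2 := by rw [hf2, ← D.ST, Tf1]
  have Jf1 : D.J f1 = f1 := by rw [hf1, ← D.SJ, Jf]
  have Jf2 : D.J f2 = f2 := by rw [hf2, ← D.SJ, Jf1]
  set g1 : O := D.S g with hg1
  set g2 : O := D.S g1 with hg2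
  have Tg1 : D.T g1 = g1 := by rw [hg1, ← D.ST, Tg]
  have Jg1 : D.J g1 = g1 := by rw [hg1, ← D.SJ, Jg]
  have hm1 : g1 = 1 + D.π ^ 9 * D.S m := by
    have := congrArg D.S hm
    simpa only [map_mul, map_add, map_one, map_pow, D.Sπ] using this
  obtain ⟨r, hr⟩ : ∃ r, f + g * f1 + g * g1 * f2 = - D.π ^ 8 * (1 - D.π * r) := by
    refine ⟨m * f1 + (m + D.S m + D.π ^ 9 * m * D.S m) * f2, ?_⟩
    rw [hm1, hm]
    linear_combination sumf
  set τ : O := 1 - D.π * r with hτ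
  have hτS : g * D.S τ = τ := by
    apply D.πcancel 8
    have h1 := congrArg D.S hr
    simp only [map_mul, map_add, map_pow, map_neg, D.Sπ, ← hf1, ← hg1, ← hf2, ← hg2, S3f] at h1
    linear_combination g * h1 - hr - f * NSg
  have hτT : D.T τ = τ := by
    apply D.πcancel 8
    have h1 := congrArg D.T hr
    simp only [map_mul, map_add, map_pow, map_neg, D.Tπ, Tf, Tf1, Tf2, Tg, Tg1] at h1
    linear_combination h1 - hr
  have hτJ : D.J τ = τ := by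
    apply D.πcancel 8
    have h1 := congrArg D.J hr
    simp only [map_mul, map_add, map_pow, map_neg, D.Jπ, Jf, Jf1, Jf2, Jg, Jg1] at h1
    linear_combination h1 - hr
  have uτ : IsUnit τ := by
    have := D.un (-r); convert this using 1; rw [hτ]; ring
  obtain ⟨γ0, hγ0⟩ : ∃ v : O, τ * v = 1 := by
    obtain ⟨u, hu⟩ := uτ
    exact ⟨(u⁻¹ : Oˣ), by rw [← hu]; simp⟩
  have Sγ0 : D.S γ0 = g * γ0 := by
    have h1 := congrArg D.S hγ0
    rw [map_mul, map_one] at h1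
    apply ucancel uτ
    linear_combination (-D.S γ0) * hτS + g * h1 - g * hγ0
  have Tγ0 : D.T γ0 = γ0 := by
    have h1 := congrArg D.T hγ0
    rw [map_mul, map_one, hτT] at h1
    exact ucancel uτ (h1.trans hγ0.symm)
  have Jγ0 : D.J γ0 = γ0 := by
    have h1 := congrArg D.J hγ0
    rw [map_mul, map_one, hτJ] at h1
    exact ucancel uτ (h1.trans hγ0.symm)
  have Ssg : D.S (D.s g) = g := by
    have h1 : D.S (D.T (D.s g)) = g := Θg
    rwa [D.Ts Tg] at h1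
  have Ssτ : D.S (D.s τ) = g * D.s τ := by
    have h1 := congrArg D.s hτS
    rw [map_mul] at h1
    have h2 := congrArg D.S h1
    rw [map_mul, Ssg, D.sS] at h2
    exact h2.symm
  have hsγ : D.s τ * D.s γ0 = 1 := by rw [← map_mul, hγ0, map_one]
  have hSu : D.S (D.T (D.s u0)) = u0 := Θu0
  refine ⟨u0 ^ 2, b ^ 2, γ0 * D.s τ, ?_, ?_, ?_, ?_, ?_, ?_, ?_, ?_, ?_, ?_, ?_, ?_, ?_⟩
  · refine ⟨D.π ^ 2 * D.t ^ 2 + (1 + D.π ^ 3 * D.t) ^ 2 *
      (2 * D.π * e * f + D.π ^ 6 * e ^ 2 * f ^ 2), ?_⟩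
    rw [hu0]; ring
  · exact ⟨2 * rb + D.π * rb ^ 2, by rw [hrb]; ring⟩
  · refine ⟨r * γ0 * D.s τ - D.s r, ?_⟩
    have h1 : D.s τ = 1 - D.π * D.s r := by rw [hτ, map_sub, map_mul, map_one, D.sπ]
    have h2 : γ0 = 1 + D.π * (r * γ0) := by
      rw [hτ] at hγ0; linear_combination hγ0
    linear_combination D.s τ * h2 + h1
  · have h1 : D.T b * D.T b' = 1 := by rw [← map_mul, hbb, map_one]
    have h2 : (u0 * D.S u0 * D.S (D.S u0)) * D.T b = b := by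
      rw [hNS]; linear_combination b * h1
    rw [map_pow, map_pow, map_pow]
    have h3 := congrArg (fun a => a ^ 2) h2
    linear_combination h3
  · rw [map_mul, Sγ0, Ssτ, map_pow, map_pow]
    have h3 : u0 * D.T u0 * D.T (D.T u0) = g := hg.symm
    have h4 := congrArg (fun a => a ^ 2 * (γ0 * D.s τ)) h3
    linear_combination h4
  · rw [map_pow, ← hb', ← mul_pow, mul_comm b' b, hbb, one_pow]
  · rw [map_mul, D.ss]; linear_combination hγ0 + (γ0 * τ) * hsγ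
  · rw [map_pow, map_pow, map_pow, hSu]
  · rw [map_pow, Ju0]
  · rw [map_pow, hSb]
  · rw [map_pow, hJb]
  · rw [map_mul, Tγ0, D.Ts hτT]
  · rw [map_mul, Jγ0, D.Js hτJ]

end Dat
end PC9e.S1
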